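import Mathlib

/-!
# The Whitman number of the dual of the partition lattice (MP_437e5a_co)

For a nontrivial finite perfect group `T`, the dual of the partition lattice of `{0,…,n}` embeds into
the lattice of partitions of `T^n`: to a partition `π` of `{0,…,n}` attach the equivalence relation
`f ∼ g ↔ i ↦ f(i)⁻¹ g(i) is constant on the blocks of π` on `{f : {0,…,n} → T | f 0 = 1}`.
Joins are preserved because every function constant on the blocks of `π ⊓ σ` lies in the subgroup
generated by the functions constant on the blocks of `π` and those constant on the blocks of `σ`: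
the commutator of `a` on a block `P` and `b` on a block `Q` is `[a,b]` on `P ∩ Q`.
With `T = A₅` the Whitman number of the dual of `Π_{n+1}` is at most `60 ^ n`; for `n + 1 = 4` this
is `216000 < 2 ^ 1000`.
-/

namespace Pool.Agent.Results.MP_437e5a_co.DualPartitionLattice

open scoped commutatorElement

/-- A lattice `L` is representable by partitions of an `N`-element set if there is an injective map
from `L` to the partition lattice `Setoid (Fin N)` (ordered by refinement) that preserves binary
meets and joins. -/
def Representable (L : Type*) [Lattice L] (N : ℕ) : Prop :=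
  ∃ f : LatticeHom L (Setoid (Fin N)), Function.Injective f

/-- The Whitman number: the least number of points on which `L` is representable. -/
noncomputable def whitman (L : Type*) [Lattice L] : ℕ := sInf {N | Representable L N}

section Group
variable {T : Type*} [Group T] {n : ℕ}

/-- Extend by the value `1` at `0`. -/
def ext (f : Fin n → T) : Fin (n + 1) → T := Fin.cons 1 f

/-- Normalise the value at `0` to `1`. -/
def norm (F : Fin (n + 1) → T) : Fin n → T := fun i => F i.succ * (F 0)⁻¹

lemma ext_norm (F : Fin (n + 1) → T) (i : Fin (n + 1)) : ext (norm F) i = F i * (F 0)⁻¹ := by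
  refine Fin.cases ?_ (fun j => ?_) i
  · simp [ext]
  · simp [ext, norm]

lemma norm_ext (f : Fin n → T) : norm (ext f) = f := by
  funext i
  simp [ext, norm]

/-- The quotient of two functions. -/
def quo (F G : Fin (n + 1) → T) : Fin (n + 1) → T := fun i => (F i)⁻¹ * G i

/-- The partition of `T^n` attached to a partition of `{0,…,n}`. -/
def rel (π : Setoid (Fin (n + 1))) : Setoid (Fin n → T) where
  r f g := π ≤ Setoid.ker (quo (ext f) (ext g))
  iseqv :=
    { refl := fun f i j _ => by simp [Setoid.ker_def, quo]
      symm := by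
        intro f g h i j hij
        have h1 : quo (ext f) (ext g) i = quo (ext f) (ext g) j := h hij
        rw [Setoid.ker_def]
        have h2 : ∀ k, quo (ext g) (ext f) k = (quo (ext f) (ext g) k)⁻¹ := fun k => by
          simp [quo]
        rw [h2, h2, h1]
      trans := by
        intro f g k h h' i j hij
        have h1 : quo (ext f) (ext g) i = quo (ext f) (ext g) j := h hij
        have h1' : quo (ext g) (ext k) i = quo (ext g) (ext k) j := h' hij
        rw [Setoid.ker_def]
        have h2 : ∀ l, quo (ext f) (ext k) l = quo (ext f) (ext g) l * quo (ext g) (ext k) l :=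
          fun l => by simp [quo]
        rw [h2, h2, h1, h1'] }

lemma rel_iff (π : Setoid (Fin (n + 1))) (f g : Fin n → T) :
    rel π f g ↔ π ≤ Setoid.ker (quo (ext f) (ext g)) := Iff.rfl

lemma rel_norm (π : Setoid (Fin (n + 1))) (F G : Fin (n + 1) → T) :
    rel π (norm F) (norm G) ↔ π ≤ Setoid.ker (quo F G) := by
  rw [rel_iff]
  have h : Setoid.ker (quo (ext (norm F)) (ext (norm G))) = Setoid.ker (quo F G) := by
    ext i j
    rw [Setoid.ker_def, Setoid.ker_def]
    have h1 : ∀ k, quo (ext (norm F)) (ext (norm G)) k = F 0 * quo F G k * (G 0)⁻¹ := fun k => by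
      simp only [quo, ext_norm]
      group
    rw [h1, h1, mul_left_inj, mul_right_inj]
  rw [h]

/-- The function equal to `a` on the block of `i₀` and to `1` elsewhere. -/
noncomputable def bump (s : Setoid (Fin (n + 1))) (i₀ : Fin (n + 1)) : T →* (Fin (n + 1) → T) := by
  classical
  exact
  { toFun := fun a i => if s i₀ i then a else 1
    map_one' := by funext i; simp
    map_mul' := fun a b => by funext i; by_cases h : s i₀ i <;> simp [h] }

lemma bump_apply_of (s : Setoid (Fin (n + 1))) {i₀ i : Fin (n + 1)} (a : T) (h : s i₀ i) :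
    bump s i₀ a i = a := by simp [bump, h]

lemma bump_apply_of_not (s : Setoid (Fin (n + 1))) {i₀ i : Fin (n + 1)} (a : T) (h : ¬ s i₀ i) :
    bump s i₀ a i = 1 := by simp [bump, h]

lemma le_ker_bump (s : Setoid (Fin (n + 1))) (i₀ : Fin (n + 1)) (a : T) :
    s ≤ Setoid.ker (bump s i₀ a) := by
  intro i j hij
  rw [Setoid.ker_def]
  by_cases h : s i₀ i
  · rw [bump_apply_of s a h, bump_apply_of s a (s.trans h hij)]
  · have h' : ¬ s i₀ j := fun h' => h (s.trans h' (s.symm hij))
    rw [bump_apply_of_not s a h, bump_apply_of_not s a h']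

/-- The subgroup of all `h` with `norm F ∼ norm (F h)` for all `F`, for the join of the two
relations. -/
def H (π σ : Setoid (Fin (n + 1))) : Subgroup (Fin (n + 1) → T) where
  carrier := {h | ∀ F : Fin (n + 1) → T, (rel π ⊔ rel σ : Setoid (Fin n → T)) (norm F) (norm (F * h))}
  one_mem' := fun F => by rw [mul_one]
  mul_mem' := by
    intro a b ha hb F
    have h1 := ha F
    have h2 := hb (F * a)
    rw [mul_assoc] at h2
    exact Setoid.trans' _ h1 h2
  inv_mem' := by
    intro a ha F
    have h1 := ha (F * a⁻¹)
    rw [inv_mul_cancel_right] at h1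
    exact Setoid.symm' _ h1

lemma mem_H_left {π σ : Setoid (Fin (n + 1))} {h : Fin (n + 1) → T} (hh : π ≤ Setoid.ker h) :
    h ∈ H π σ := by
  intro F
  have h1 : rel π (norm F) (norm (F * h)) := by
    rw [rel_norm]
    have : quo F (F * h) = h := by funext i; simp [quo]
    rwa [this]
  exact (le_sup_left : rel π ≤ rel π ⊔ rel σ) h1

lemma mem_H_right {π σ : Setoid (Fin (n + 1))} {h : Fin (n + 1) → T} (hh : σ ≤ Setoid.ker h) :
    h ∈ H π σ := by
  intro F
  have h1 : rel σ (norm F) (norm (F * h)) := by
    rw [rel_norm]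
    have : quo F (F * h) = h := by funext i; simp [quo]
    rwa [this]
  exact (le_sup_right : rel σ ≤ rel π ⊔ rel σ) h1

lemma bump_mem_H (hT : commutator T = ⊤) (π σ : Setoid (Fin (n + 1))) (i₀ : Fin (n + 1)) (a : T) :
    bump (π ⊓ σ) i₀ a ∈ H π σ := by
  have h1 : (⊤ : Subgroup T) ≤ (H π σ).comap (bump (π ⊓ σ) i₀) := by
    rw [← hT, commutator_def, Subgroup.commutator_le]
    intro a _ b _
    rw [Subgroup.mem_comap]
    have h2 : bump (π ⊓ σ) i₀ ⁅a, b⁆ = ⁅bump π i₀ a, bump σ i₀ b⁆ := by
      funext i
      rw [show ⁅bump π i₀ a, bump σ i₀ b⁆ i = ⁅bump π i₀ a i, bump σ i₀ b i⁆ from rfl]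
      by_cases h3 : π i₀ i
      · by_cases h4 : σ i₀ i
        · rw [bump_apply_of _ _ h3, bump_apply_of _ _ h4, bump_apply_of]
          exact ⟨h3, h4⟩
        · rw [bump_apply_of_not _ _ h4, bump_apply_of_not, commutatorElement_one_right]
          exact fun h => h4 h.2
      · rw [bump_apply_of_not _ _ h3, bump_apply_of_not, commutatorElement_one_left]
        exact fun h => h3 h.1
    rw [h2]
    have ha := mem_H_left (σ := σ) (le_ker_bump π i₀ a)
    have hb := mem_H_right (π := π) (le_ker_bump σ i₀ b)
    rw [commutatorElement_def]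
    exact mul_mem (mul_mem (mul_mem ha hb) (inv_mem ha)) (inv_mem hb)
  exact h1 (Subgroup.mem_top a)

lemma mem_H (hT : commutator T = ⊤) (π σ : Setoid (Fin (n + 1))) :
    ∀ (m : ℕ) (h : Fin (n + 1) → T), π ⊓ σ ≤ Setoid.ker h →
      {i | h i ≠ 1}.ncard = m → h ∈ H π σ := by
  intro m
  induction m using Nat.strong_induction_on with
  | _ m ih =>
    intro h hh hm
    by_cases hone : ∀ i, h i = 1
    · have : h = 1 := funext hone
      rw [this]
      exact one_mem _
    · push Not at hone
      obtain ⟨i₀, hi₀⟩ := hone
      set b := bump (π ⊓ σ) i₀ (h i₀) with hb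
      have hbH : b ∈ H π σ := bump_mem_H hT π σ i₀ (h i₀)
      have h1 : h * b⁻¹ ∈ H π σ := by
        refine ih _ ?_ (h * b⁻¹) ?_ rfl
        · rw [← hm]
          apply Set.ncard_lt_ncard
          · rw [Set.ssubset_iff_of_subset]
            · refine ⟨i₀, hi₀, ?_⟩
              have : b i₀ = h i₀ := bump_apply_of _ _ ((π ⊓ σ).refl i₀)
              simp [this]
            · intro i hi hi'
              apply hi
              rw [Pi.mul_apply, Pi.inv_apply, hi', one_mul, inv_eq_one]
              by_cases h3 : (π ⊓ σ) i₀ i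
              · rw [hb, bump_apply_of _ _ h3]
                have h4 : h i₀ = h i := hh h3
                rw [h4]; exact hi'
              · rw [hb, bump_apply_of_not _ _ h3]
          · exact Set.toFinite _
        · intro i j hij
          have h3 : h i = h j := hh hij
          have h4 : b i = b j := le_ker_bump (π ⊓ σ) i₀ (h i₀) hij
          show (h * b⁻¹) i = (h * b⁻¹) j
          rw [Pi.mul_apply, Pi.mul_apply, Pi.inv_apply, Pi.inv_apply, h3, h4]
      have h2 : h = (h * b⁻¹) * b := by rw [inv_mul_cancel_right]
      rw [h2]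
      exact mul_mem h1 hbH

lemma rel_antitone {π σ : Setoid (Fin (n + 1))} (h : π ≤ σ) :
    (rel σ : Setoid (Fin n → T)) ≤ rel π := fun _ _ hfg => h.trans hfg

lemma rel_sup (π σ : Setoid (Fin (n + 1))) :
    (rel (π ⊔ σ) : Setoid (Fin n → T)) = rel π ⊓ rel σ := by
  ext f g
  show π ⊔ σ ≤ _ ↔ π ≤ _ ∧ σ ≤ _
  exact sup_le_iff

lemma rel_inf (hT : commutator T = ⊤) (π σ : Setoid (Fin (n + 1))) :
    (rel (π ⊓ σ) : Setoid (Fin n → T)) = rel π ⊔ rel σ := by
  apply le_antisymm
  · intro f g hfg
    have h1 : π ⊓ σ ≤ Setoid.ker (quo (ext f) (ext g)) := hfg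
    have h2 := mem_H hT π σ _ _ h1 rfl (ext f)
    have h3 : ext f * quo (ext f) (ext g) = ext g := by funext i; simp [quo]
    rwa [h3, norm_ext, norm_ext] at h2
  · exact sup_le (rel_antitone inf_le_left) (rel_antitone inf_le_right)

lemma rel_injective [Nontrivial T] :
    Function.Injective (rel : Setoid (Fin (n + 1)) → Setoid (Fin n → T)) := by
  have key : ∀ π σ : Setoid (Fin (n + 1)), (rel σ : Setoid (Fin n → T)) ≤ rel π → π ≤ σ := by
    intro π σ h i j hij
    by_contra hσ
    obtain ⟨a, ha⟩ := exists_ne (1 : T)
    have h1 : (rel σ : Setoid (Fin n → T)) (norm 1) (norm (bump σ i a)) := by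
      rw [rel_norm]
      have : quo 1 (bump σ i a) = bump σ i a := by funext k; simp [quo]
      rw [this]
      exact le_ker_bump σ i a
    have h2 := h h1
    rw [rel_norm] at h2
    have h3 : quo 1 (bump σ i a) i = quo 1 (bump σ i a) j := h2 hij
    simp only [quo, Pi.one_apply, inv_one, one_mul] at h3
    rw [bump_apply_of σ a (σ.refl i), bump_apply_of_not σ a hσ] at h3
    exact ha h3
  intro π σ h
  exact le_antisymm (key π σ h.ge) (key σ π h.le)

/-- The lattice embedding of the dual of the partition lattice. -/
def emb (hT : commutator T = ⊤) : LatticeHom (Setoid (Fin (n + 1)))ᵒᵈ (Setoid (Fin n → T)) where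
  toFun π := rel (OrderDual.ofDual π)
  map_sup' π σ := by
    show rel (OrderDual.ofDual π ⊓ OrderDual.ofDual σ) = _
    exact rel_inf hT _ _
  map_inf' π σ := by
    show rel (OrderDual.ofDual π ⊔ OrderDual.ofDual σ) = _
    exact rel_sup _ _

end Group

/-- Transport of partitions along a bijection. -/
def setoidCongr {A B : Type*} (e : A ≃ B) : Setoid A ≃o Setoid B where
  toFun r := r.comap e.symm
  invFun s := s.comap e
  left_inv r := by ext x y; simp [Setoid.comap_rel]
  right_inv s := by ext x y; simp [Setoid.comap_rel]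
  map_rel_iff' := by
    intro r s
    constructor
    · intro h x y hxy
      have h1 : r (e.symm (e x)) (e.symm (e y)) := by
        rwa [e.symm_apply_apply, e.symm_apply_apply]
      have h2 : s (e.symm (e x)) (e.symm (e y)) := h h1
      rwa [e.symm_apply_apply, e.symm_apply_apply] at h2
    · intro h x y hxy
      exact h hxy

lemma representable_of_embedding {L : Type*} [Lattice L] {A : Type*} [Fintype A]
    (f : LatticeHom L (Setoid A)) (hf : Function.Injective f) {N : ℕ} (hN : Fintype.card A = N) :
    Representable L N := by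
  have e := setoidCongr (Fintype.equivFinOfCardEq hN)
  let g : LatticeHom (Setoid A) (Setoid (Fin N)) :=
    { toFun := e, map_sup' := e.map_sup, map_inf' := e.map_inf }
  refine ⟨g.comp f, ?_⟩
  intro x y hxy
  exact hf (e.injective hxy)

lemma card_A5 : Fintype.card (alternatingGroup (Fin 5)) = 60 := by
  rw [card_alternatingGroup]
  decide

lemma representable_dual (n : ℕ) : Representable (Setoid (Fin (n + 1)))ᵒᵈ (60 ^ n) := by
  have hT : commutator (alternatingGroup (Fin 5)) = ⊤ :=
    commutator_alternatingGroup_eq_top (by simp)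
  have : Nontrivial (alternatingGroup (Fin 5)) := by
    rw [← Fintype.one_lt_card_iff_nontrivial, card_A5]
    norm_num
  refine representable_of_embedding (emb (T := alternatingGroup (Fin 5)) (n := n) hT) ?_ ?_
  · intro x y hxy
    exact rel_injective hxy
  · rw [Fintype.card_fun, card_A5, Fintype.card_fin]

/-- **The Whitman number of the dual of `Π₄` is at most `216000 < 2 ^ 1000`** (Q1: yes). More
generally the dual of the partition lattice of an `(n+1)`-element set is representable by
partitions of a set with `60 ^ n` elements. -/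
theorem result :
    (∀ n : ℕ, Representable (Setoid (Fin (n + 1)))ᵒᵈ (60 ^ n)) ∧
    Representable (Setoid (Fin 4))ᵒᵈ 216000 ∧
    whitman (Setoid (Fin 4))ᵒᵈ ≤ 216000 ∧
    whitman (Setoid (Fin 4))ᵒᵈ ≤ 2 ^ 1000 := by
  have h4 : Representable (Setoid (Fin 4))ᵒᵈ 216000 := representable_dual 3
  have h5 : whitman (Setoid (Fin 4))ᵒᵈ ≤ 216000 := Nat.sInf_le h4
  refine ⟨representable_dual, h4, h5, h5.trans ?_⟩
  calc 216000 ≤ 2 ^ 18 := by norm_num
    _ ≤ 2 ^ 1000 := Nat.pow_le_pow_right (by norm_num) (by norm_num)

end Pool.Agent.Results.MP_437e5a_co.DualPartitionLattice
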